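import Pool.Agent.Helper21.TG.Defs
import Pool.Agent.Helper53.TC5.Lower5
import Pool.Agent.Helper53.TC5.Small

/-!
# From the votes on `Sym2 (Fin n)` to the votes on matrices
-/

set_option autoImplicit false

open Finset

namespace Pool.Agent.Helper21.TG

open Pool.Agent.Helper22.ETModel Pool.Agent.Helper8.VT Pool.Agent.Helper8.UV
open Pool.Agent.Helper21.UV3 Pool.Agent.Helper21.UV4 Pool.Agent.Helper53.TC5
open Pool.Agent.Helper94 (DV.Inst DV.Yes DV.Solves)

variable {n : ℕ}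

/-- A symmetric function of the cell from an arbitrary matrix. -/
def sym {α : Type} (w : Fin n → Fin n → α) (u v : Fin n) : α := w (min u v) (max u v)

lemma sym_comm {α : Type} (w : Fin n → Fin n → α) (u v : Fin n) : sym w u v = sym w v u := by
  unfold sym
  rw [min_comm, max_comm]

lemma sym_eq {α : Type} {w : Fin n → Fin n → α} (h : ∀ i j, w i j = w j i) (u v : Fin n) :
    sym w u v = w u v := by
  unfold sym
  rcases le_total u v with hh | hh
  · rw [min_eq_left hh, max_eq_right hh]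
  · rw [min_eq_right hh, max_eq_left hh]
    exact h v u

/-- The function on pairs. -/
def lift {α : Type} (w : Fin n → Fin n → α) : Sym2 (Fin n) → α :=
  Sym2.lift ⟨sym w, sym_comm w⟩

@[simp] lemma lift_mk {α : Type} (w : Fin n → Fin n → α) (u v : Fin n) :
    lift w s(u, v) = sym w u v := rfl

open Classical in
/-- The instance with given weights. -/
noncomputable def back (w : Wts n) : DV.Inst n :=
  if h : ∀ e, |lift w e| ≤ (n : ℤ) ^ 300 then ⟨lift w, h⟩ else ⟨fun _ => 0, fun _ => by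
    rw [abs_zero]; positivity⟩

lemma back_eq {f : Flags n} {w : Wts n} (h : (⟨f, w⟩ : Helper22.ETModel.Inst n).Valid)
    (u v : Fin n) : (back w).1 s(u, v) = w u v := by
  have h1 : ∀ e, |lift w e| ≤ (n : ℤ) ^ 300 := by
    intro e
    induction e using Sym2.ind with
    | _ a b =>
      rw [lift_mk, sym_eq h.2.2.1]
      exact h.2.2.2 a b
  unfold back
  rw [dif_pos h1]
  exact sym_eq h.2.2.1 u v

lemma back_out {f : Flags n} {w : Wts n} (h : (⟨f, w⟩ : Helper22.ETModel.Inst n).Valid)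
    (e : Sym2 (Fin n)) : (back w).1 e = w (Quot.out e).1 (Quot.out e).2 := by
  rw [← back_eq h]
  exact (congrArg (back w).1 (Quot.out_eq e)).symm

lemma hide_valid {f : Flags n} {w : Wts n} (h : (⟨f, w⟩ : Helper22.ETModel.Inst n).Valid)
    (p q : ℕ) : (⟨f, hide p q w⟩ : Helper22.ETModel.Inst n).Valid := by
  refine ⟨h.1, h.2.1, fun i j => ?_, fun i j => ?_⟩
  · change hide p q w i j = hide p q w j i
    unfold hide
    have hs : Side p q i j ↔ Side p q j i := by
      unfold Side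
      tauto
    by_cases hh : Side p q i j
    · rw [if_pos hh, if_pos (hs.1 hh)]
    · rw [if_neg hh, if_neg (fun h2 => hh (hs.2 h2))]
      exact h.2.2.1 i j
  · change |hide p q w i j| ≤ _
    unfold hide
    by_cases hh : Side p q i j
    · rw [if_pos hh, abs_zero]
      positivity
    · rw [if_neg hh]
      exact h.2.2.2 i j

lemma isFree_of_free {H : DV.Inst n → ℝ} (h : Free H) :
    IsFree (fun I : Helper22.ETModel.Inst n => H (back I.wt)) := by
  obtain ⟨p, hp⟩ := h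
  have key : ∃ a b : ℕ, a < b ∧ b < 3 ∧ a ≠ p ∧ b ≠ p := by
    by_cases h0 : p = 0
    · exact ⟨1, 2, by omega, by omega, by omega, by omega⟩
    · by_cases h1 : p = 1
      · exact ⟨0, 2, by omega, by omega, by omega, by omega⟩
      · exact ⟨0, 1, by omega, by omega, by omega, by omega⟩
  obtain ⟨a, b, hab, hb, hap, hbp⟩ := key
  refine ⟨a, b, hab, hb, fun _ w => H (back w), fun I hI => ?_⟩
  refine hp _ _ fun e he => ?_
  obtain ⟨u, hu, hup⟩ := he
  induction e using Sym2.ind with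
  | _ x y =>
    rw [back_eq (f := I.flag) hI, back_eq (hide_valid (f := I.flag) hI a b)]
    unfold hide
    rw [if_neg]
    rw [Sym2.mem_iff] at hu
    unfold Side
    rcases hu with rfl | rfl <;> omega

lemma pval_rename {f : Flags n} {w : Wts n} (h : (⟨f, w⟩ : Helper22.ETModel.Inst n).Valid)
    (p : Poly n) : pval (MvPolynomial.rename (fun e : Sym2 (Fin n) => Quot.out e) p) w =
      value p (back w) := by
  unfold pval value
  rw [MvPolynomial.eval_rename]
  congr 2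
  funext e
  rw [back_out h e]
  rfl

lemma isBatch_of_gates {d m N : ℕ} {H : DV.Inst n → ℝ} (h : Gates d m H) (hm : m ≤ N) :
    IsBatch d 0 (0 + m) N (fun I : Helper22.ETModel.Inst n => H (back I.wt)) := by
  classical
  obtain ⟨p, F, hp, hF⟩ := h
  refine ⟨fun _ => .batch m (fun _ => 0) (by simpa using hm)
    (fun i => MvPolynomial.rename (fun e : Sym2 (Fin n) => Quot.out e) (p i))
    (fun i => le_trans (MvPolynomial.totalDegree_rename_le _ _) (hp i))
    (fun a => .leaf (F fun i => a i = true)), fun I hI => ?_⟩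
  change H (back I.wt) = F _
  rw [hF]
  congr 1
  funext i
  rw [decide_eq_true_eq, pval_rename (f := I.flag) hI]

lemma back_yes {I : Helper22.ETModel.Inst n} (hI : I.Valid) (hT : Tripartite I) :
    DV.Yes (back I.wt) ↔ I.Yes := by
  have hb : ∀ u v, (back I.wt).1 s(u, v) = I.wt u v := fun u v => back_eq (f := I.flag) hI u v
  unfold DV.Yes Inst.Yes
  constructor
  · rintro ⟨a, b, c, h1, h2, h3, h4⟩
    rw [hb, hb, hb] at h4
    exact ⟨a, b, c, fun h => h1 (by rw [h]), fun h => h2 (by rw [h]), fun h => h3 (by rw [h]),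
      (hT a b).2 h1, (hT b c).2 h2, (hT a c).2 h3, h4⟩
  · rintro ⟨a, b, c, -, -, -, h1, h2, h3, h4⟩
    refine ⟨a, b, c, (hT a b).1 h1, (hT b c).1 h2, (hT a c).1 h3, ?_⟩
    rw [hb, hb, hb]
    exact h4

lemma decides_of_solves {Ω ι : Type} [Fintype Ω] [Fintype ι] {H : Ω → ι → DV.Inst n → ℝ}
    (h : DV.Solves H) (I : Helper22.ETModel.Inst n) (hI : I.Valid) (hT : Tripartite I) :
    Decides (fun ω i (I : Helper22.ETModel.Inst n) => H ω i (back I.wt)) I := by
  classical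
  have h1 := h (back I.wt)
  unfold Decides
  refine h1.trans (Nat.mul_le_mul_left _ (Finset.card_le_card fun ω hω => ?_))
  rw [Finset.mem_filter] at hω ⊢
  exact ⟨hω.1, hω.2.trans (back_yes hI hT)⟩

/-- The lower bound, with a bound for the number of gates of a voter. -/
theorem lower_aux (n d m N s : ℕ) (hn : 4 ≤ n) (hd : 1 ≤ d) (hs : (s + 6) * d ^ 2 ≤ 270)
    (hm : 1 ≤ m) (hms : m ≤ 2 ^ (s * (Nat.log 2 n + 1)))
    (Ω ι : Type) [Fintype Ω] [Nonempty Ω] [Fintype ι] (H : Ω → ι ⊕ Fin N → DV.Inst n → ℝ)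
    (hF : ∀ ω i, Free (H ω (.inl i))) (hG : ∀ ω i, Gates d m (H ω (.inr i)))
    (hS : DV.Solves H) : (n : ℝ) ^ 3 ≤ 2 ^ 32 * 100 ^ d * (N * (m : ℝ) ^ (3 / 2 : ℝ)) := by
  classical
  let κ : Ω → ι ⊕ Fin N → ℝ := fun _ => Sum.elim (fun _ => 0) fun _ => (m : ℝ) ^ (3 / 2 : ℝ)
  have hκ : ∀ ω r, Price5 d s (fun I : Helper22.ETModel.Inst n => H ω r (back I.wt)) (κ ω r) := by
    rintro ω (i | i)
    · exact Or.inl ⟨rfl, isFree_of_free (hF ω i)⟩
    · refine Or.inr (Or.inr (Or.inl ⟨0, 0 + m, by omega, isBatch_of_gates (hG ω i) hms, ?_⟩))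
      simp [κ]
  have key := lower5 (fun n hn Ω ι _ _ _ H κ h0 h1 hd => small5 n hn Ω ι H κ h0 h1 hd)
    n d s hn hd hs Ω (ι ⊕ Fin N) (fun ω r I => H ω r (back I.wt)) κ hκ
    (fun I hI hT => decides_of_solves hS I hI hT)
  have hc : (0 : ℝ) < Fintype.card Ω := by exact_mod_cast Fintype.card_pos
  have hsum : (∑ ω, ∑ r, κ ω r) / Fintype.card Ω = N * (m : ℝ) ^ (3 / 2 : ℝ) := by
    simp only [κ, Fintype.sum_sum_type, Sum.elim_inl, Sum.elim_inr, Finset.sum_const_zero,
      zero_add, Finset.sum_const, Finset.card_univ, Fintype.card_fin, nsmul_eq_mul]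
    field_simp
  rw [hsum] at key
  exact key

/-- The lower bound. -/
theorem lower (n d m N : ℕ) (hn : 4 ≤ n) (hd : 1 ≤ d) (hd5 : d ≤ 5) (hm : 1 ≤ m)
    (Ω ι : Type) [Fintype Ω] [Nonempty Ω] [Fintype ι] (H : Ω → ι ⊕ Fin N → DV.Inst n → ℝ)
    (hF : ∀ ω i, Free (H ω (.inl i))) (hG : ∀ ω i, Gates d m (H ω (.inr i)))
    (hS : DV.Solves H) : (n : ℝ) ^ 3 ≤ 2 ^ 32 * 100 ^ d * (N * (m : ℝ) ^ (3 / 2 : ℝ)) := by
  have hs : (2 + 6) * d ^ 2 ≤ 270 := by
    have : d ^ 2 ≤ 5 ^ 2 := Nat.pow_le_pow_left hd5 2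
    omega
  by_cases hmn : m ≤ 2 ^ (2 * (Nat.log 2 n + 1))
  · exact lower_aux n d m N 2 hn hd hs hm hmn Ω ι H hF hG hS
  · rcases Nat.eq_zero_or_pos N with hN | hN
    · subst hN
      have := lower_aux n d 1 0 2 hn hd hs le_rfl Nat.one_le_two_pow Ω ι H hF
        (fun ω i => i.elim0) hS
      simpa using this
    · have h1 : n ^ 2 ≤ m := by
        have h2 : n < 2 ^ (Nat.log 2 n + 1) := Nat.lt_pow_succ_log_self (by norm_num) n
        have h3 : n ^ 2 ≤ (2 ^ (Nat.log 2 n + 1)) ^ 2 := Nat.pow_le_pow_left h2.le 2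
        rw [← pow_mul, mul_comm] at h3
        omega
      have h4 : ((n : ℝ) ^ 2) ^ (3 / 2 : ℝ) ≤ (m : ℝ) ^ (3 / 2 : ℝ) := by
        apply Real.rpow_le_rpow (by positivity) _ (by norm_num)
        exact_mod_cast h1
      have h5 : ((n : ℝ) ^ 2) ^ (3 / 2 : ℝ) = (n : ℝ) ^ 3 := by
        rw [← Real.rpow_natCast, ← Real.rpow_mul (by positivity), ← Real.rpow_natCast]
        norm_num
      rw [h5] at h4
      have hN1 : (1 : ℝ) ≤ N := by exact_mod_cast hN
      have h6 : (1 : ℝ) ≤ 2 ^ 32 * 100 ^ d := by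
        have : (1 : ℝ) ≤ 100 ^ d := one_le_pow₀ (by norm_num)
        nlinarith
      have h7 : (0 : ℝ) ≤ (n : ℝ) ^ 3 := by positivity
      calc (n : ℝ) ^ 3 ≤ (m : ℝ) ^ (3 / 2 : ℝ) := h4
        _ ≤ N * (m : ℝ) ^ (3 / 2 : ℝ) := le_mul_of_one_le_left (h7.trans h4) hN1
        _ ≤ 2 ^ 32 * 100 ^ d * (N * (m : ℝ) ^ (3 / 2 : ℝ)) :=
            le_mul_of_one_le_left (by positivity) h6

/-- The form of a triangle. -/
noncomputable def form (x : Fin n × Fin n × Fin n) : Poly n :=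
  MvPolynomial.X s(x.1, x.2.1) + MvPolynomial.X s(x.2.1, x.2.2) + MvPolynomial.X s(x.1, x.2.2)

lemma form_degree (x : Fin n × Fin n × Fin n) : (form x).totalDegree ≤ 1 := by
  unfold form
  refine le_trans (MvPolynomial.totalDegree_add _ _) (max_le ?_ (by simp))
  exact le_trans (MvPolynomial.totalDegree_add _ _) (max_le (by simp) (by simp))

lemma value_form (x : Fin n × Fin n × Fin n) (w : DV.Inst n) :
    value (form x) w = ((w.1 s(x.1, x.2.1) + w.1 s(x.2.1, x.2.2) + w.1 s(x.1, x.2.2) : ℤ) : ℝ) := by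
  unfold value form
  simp

/-- The classes of the three vertices are different. -/
def Diff (x : Fin n × Fin n × Fin n) : Prop :=
  (x.1 : ℕ) % 3 ≠ (x.2.1 : ℕ) % 3 ∧ (x.2.1 : ℕ) % 3 ≠ (x.2.2 : ℕ) % 3 ∧
    (x.1 : ℕ) % 3 ≠ (x.2.2 : ℕ) % 3

open Classical in
/-- The vote of a gate. -/
noncomputable def gate (x : (Fin n × Fin n × Fin n) × Bool) (w : DV.Inst n) : ℝ :=
  if Diff x.1 then
    if 0 ≤ value (if x.2 = true then form x.1 else -form x.1) w then 1 / 2 else -(1 / 2)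
  else 0

lemma gates_gate (x : (Fin n × Fin n × Fin n) × Bool) : Gates 1 1 (gate x) := by
  classical
  refine ⟨fun _ => if x.2 = true then form x.1 else -form x.1,
    fun a => if Diff x.1 then if a 0 then 1 / 2 else -(1 / 2) else 0, fun _ => ?_, fun w => ?_⟩
  · dsimp only
    split_ifs
    · exact form_degree _
    · rw [MvPolynomial.totalDegree_neg]
      exact form_degree _
  · unfold gate
    rfl

lemma key (z : ℤ) : (if (0 : ℝ) ≤ (z : ℝ) then (1 / 2 : ℝ) else -(1 / 2)) +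
    (if (0 : ℝ) ≤ -(z : ℝ) then (1 / 2 : ℝ) else -(1 / 2)) = if z = 0 then 1 else 0 := by
  rcases lt_trichotomy z 0 with hz | hz | hz
  · have h0 : (z : ℝ) < 0 := by exact_mod_cast hz
    rw [if_neg (by linarith), if_pos (by linarith), if_neg hz.ne]
    norm_num
  · subst hz
    norm_num
  · have h0 : (0 : ℝ) < (z : ℝ) := by exact_mod_cast hz
    rw [if_pos h0.le, if_neg (by linarith), if_neg hz.ne']
    norm_num

lemma gate_pair (x : Fin n × Fin n × Fin n) (w : DV.Inst n) [Decidable (Diff x ∧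
    w.1 s(x.1, x.2.1) + w.1 s(x.2.1, x.2.2) + w.1 s(x.1, x.2.2) = 0)] :
    gate (x, true) w + gate (x, false) w = if (Diff x ∧
      w.1 s(x.1, x.2.1) + w.1 s(x.2.1, x.2.2) + w.1 s(x.1, x.2.2) = 0) then 1 else 0 := by
  classical
  unfold gate
  by_cases hx : Diff x
  · have e1 : value (if ((x, true) : (Fin n × Fin n × Fin n) × Bool).2 = true then form x
        else -form x) w = ((w.1 s(x.1, x.2.1) + w.1 s(x.2.1, x.2.2) + w.1 s(x.1, x.2.2) : ℤ) : ℝ) := by
      rw [if_pos rfl]; exact value_form x w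
    have e2 : value (if ((x, false) : (Fin n × Fin n × Fin n) × Bool).2 = true then form x
        else -form x) w = -((w.1 s(x.1, x.2.1) + w.1 s(x.2.1, x.2.2) + w.1 s(x.1, x.2.2) : ℤ) : ℝ) := by
      rw [if_neg (by simp), ← value_form x w]
      unfold value
      rw [map_neg]
    rw [if_pos hx, if_pos hx]
    dsimp only at e1 e2 ⊢
    rw [e1, e2, key]
    by_cases hz : w.1 s(x.1, x.2.1) + w.1 s(x.2.1, x.2.2) + w.1 s(x.1, x.2.2) = 0
    · rw [if_pos hz, if_pos ⟨hx, hz⟩]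
    · rw [if_neg hz, if_neg (fun h => hz h.2)]
  · rw [if_neg hx, if_neg hx, if_neg (fun h => hx h.1)]
    norm_num

/-- The upper bound. -/
theorem upper (n : ℕ) : ∃ H : Fin (2 * n ^ 3) → DV.Inst n → ℝ,
    (∀ i, Gates 1 1 (H i)) ∧ ∀ w, (0 < ∑ i, H i w ↔ DV.Yes w) := by
  classical
  have hcard : Fintype.card ((Fin n × Fin n × Fin n) × Bool) = 2 * n ^ 3 := by
    simp only [Fintype.card_prod, Fintype.card_fin, Fintype.card_bool]
    ring
  let e := Fintype.equivFinOfCardEq hcard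
  refine ⟨fun i => gate (e.symm i), fun i => gates_gate _, fun w => ?_⟩
  have h1 : ∑ i, gate (e.symm i) w = ∑ x : (Fin n × Fin n × Fin n) × Bool, gate x w :=
    Equiv.sum_comp e.symm fun x => gate x w
  have h2 : ∑ x : (Fin n × Fin n × Fin n) × Bool, gate x w =
      ∑ x : Fin n × Fin n × Fin n, if (Diff x ∧
        w.1 s(x.1, x.2.1) + w.1 s(x.2.1, x.2.2) + w.1 s(x.1, x.2.2) = 0) then (1 : ℝ) else 0 := by
    rw [Fintype.sum_prod_type]
    refine Finset.sum_congr rfl fun x _ => ?_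
    rw [Fintype.sum_bool, gate_pair]
  rw [h1, h2, Finset.sum_boole]
  rw [Nat.cast_pos, Finset.card_pos]
  constructor
  · rintro ⟨x, hx⟩
    rw [Finset.mem_filter] at hx
    obtain ⟨-, ⟨h3, h4, h5⟩, h6⟩ := hx
    exact ⟨x.1, x.2.1, x.2.2, h3, h4, h5, h6⟩
  · rintro ⟨a, b, c, h3, h4, h5, h6⟩
    exact ⟨(a, b, c), Finset.mem_filter.2 ⟨Finset.mem_univ _, ⟨h3, h4, h5⟩, h6⟩⟩

end Pool.Agent.Helper21.TG
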