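import Pool.Agent.Helper94.DV.Defs

/-!
# Exact Triangle by threshold circuits: the voters

Definitions only. The instances (complete tripartite graphs), `Yes` and `Solves` are defined in
`Pool/Agent/Helper94/DV/Defs.lean`.
-/

set_option autoImplicit false

namespace Pool.Agent.Helper21.TG

open Pool.Agent.Helper94.DV (Inst)

/-- The real polynomials in all the weights. -/
abbrev Poly (n : ℕ) := MvPolynomial (Sym2 (Fin n)) ℝ

/-- The value of a polynomial in the weights. -/
noncomputable def value {n : ℕ} (p : Poly n) (w : Inst n) : ℝ :=
  MvPolynomial.eval (fun e => (w.1 e : ℝ)) p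

/-- The voter `H` is an arbitrary real function of the outputs of `m` threshold gates
`0 ≤ p (w)`, where the `p` are real polynomials of degree at most `d` in all the weights. -/
def Gates {n : ℕ} (d m : ℕ) (H : Inst n → ℝ) : Prop :=
  ∃ (p : Fin m → Poly n) (F : (Fin m → Prop) → ℝ), (∀ i, (p i).totalDegree ≤ d) ∧
    ∀ w, H w = F fun i => 0 ≤ value (p i) w

/-- The voter `H` is an arbitrary real function of two of the three weight matrices: of the weights
of all the pairs with a vertex in the class `p` (the classes are the residues modulo 3). -/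
def Free {n : ℕ} (H : Inst n → ℝ) : Prop :=
  ∃ p : ℕ, ∀ w w' : Inst n,
    (∀ e : Sym2 (Fin n), (∃ u ∈ e, (u : ℕ) % 3 = p) → w.1 e = w'.1 e) → H w = H w'

end Pool.Agent.Helper21.TG
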